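import Pool.Agent.W102.TD.Defs

set_option autoImplicit false

namespace Pool.Agent.W391.TD

open Finset Pool.Agent.W102.TD

section

variable {F : Type} [Field F]

/-- `g` is given by a polynomial with exponents of weight at most `r`. -/
def Rep (m r : ℕ) (g : F → F) : Prop :=
  ∃ h : ℕ → F, (∀ i, h i ≠ 0 → i < 2 ^ m - 1 ∧ wt m i ≤ r) ∧
    ∀ x, g x = ∑ i ∈ Finset.range (2 ^ m - 1), h i * x ^ i

theorem Rep.zero (m r : ℕ) : Rep m r (fun _ : F => 0) :=
  ⟨fun _ => 0, fun i hi => absurd rfl hi, fun x => by simp⟩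

theorem Rep.add {m r : ℕ} {g g' : F → F} (h : Rep m r g) (h' : Rep m r g') :
    Rep m r (fun x => g x + g' x) := by
  obtain ⟨a, ha1, ha2⟩ := h
  obtain ⟨b, hb1, hb2⟩ := h'
  refine ⟨fun i => a i + b i, fun i hi => ?_, fun x => ?_⟩
  · by_cases h0 : a i = 0
    · refine hb1 i fun h1 => hi ?_
      show a i + b i = 0
      rw [h0, h1, add_zero]
    · exact ha1 i h0
  · show g x + g' x = ∑ i ∈ Finset.range (2 ^ m - 1), (a i + b i) * x ^ i
    rw [ha2, hb2, ← Finset.sum_add_distrib]
    exact Finset.sum_congr rfl fun i _ => (add_mul _ _ _).symm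

theorem Rep.smul {m r : ℕ} {g : F → F} (c : F) (h : Rep m r g) :
    Rep m r (fun x => c * g x) := by
  obtain ⟨a, ha1, ha2⟩ := h
  refine ⟨fun i => c * a i, fun i hi => ha1 i (right_ne_zero_of_mul hi), fun x => ?_⟩
  show c * g x = ∑ i ∈ Finset.range (2 ^ m - 1), (c * a i) * x ^ i
  rw [ha2, Finset.mul_sum]
  exact Finset.sum_congr rfl fun i _ => (mul_assoc _ _ _).symm

theorem Rep.sum {ι : Type} {m r : ℕ} (s : Finset ι) (g : ι → F → F)
    (h : ∀ i ∈ s, Rep m r (g i)) : Rep m r (fun x => ∑ i ∈ s, g i x) := by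
  classical
  induction s using Finset.induction_on with
  | empty => simpa using Rep.zero (F := F) m r
  | insert a s ha ih =>
    have h1 := (h a (Finset.mem_insert_self a s)).add
      (ih fun i hi => h i (Finset.mem_insert_of_mem hi))
    simpa only [Finset.sum_insert ha] using h1

theorem Rep.mono_pow {m r i : ℕ} (hi : i < 2 ^ m - 1) (hw : wt m i ≤ r) :
    Rep m r (fun x : F => x ^ i) := by
  classical
  refine ⟨fun j => if j = i then 1 else 0, fun j hj => ?_, fun x => ?_⟩
  · by_cases h : j = i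
    · rw [h]; exact ⟨hi, hw⟩
    · exact absurd (if_neg h) hj
  · rw [Finset.sum_eq_single i]
    · simp
    · intro j _ hj
      simp [hj]
    · intro h
      exact absurd (Finset.mem_range.2 hi) h

theorem Rep.mul_pow [Fintype F] (h2 : MUL) {m r k : ℕ} (hF : Fintype.card F = 2 ^ m)
    {g : F → F} (h : Rep m r g) (hk : k < m) (hr : r + 1 < m) :
    Rep m (r + 1) (fun x => g x * x ^ (2 ^ k)) := by
  obtain ⟨a, ha1, ha2⟩ := h
  have e1 : (fun x => g x * x ^ (2 ^ k)) =
      fun x => ∑ i ∈ Finset.range (2 ^ m - 1), a i * (x ^ i * x ^ (2 ^ k)) := by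
    funext x
    rw [ha2, Finset.sum_mul]
    exact Finset.sum_congr rfl fun i _ => by ring
  rw [e1]
  refine Rep.sum _ _ fun i _ => ?_
  by_cases h0 : a i = 0
  · rw [h0]
    simpa using Rep.zero (F := F) m (r + 1)
  · obtain ⟨hi, hw⟩ := ha1 i h0
    obtain ⟨i', h3, h4, h5, h6⟩ := h2 m i k hi hk (by omega)
    have e2 : (fun x : F => a i * (x ^ i * x ^ (2 ^ k))) = fun x => a i * x ^ i' := by
      funext x
      rw [← pow_add]
      congr 1
      by_cases hx : x = 0
      · subst hx
        have h8 : 0 < 2 ^ k := by positivity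
        rw [zero_pow (by omega), zero_pow (by omega)]
      · have h7 : x ^ (2 ^ m - 1) = 1 := by
          rw [← hF]
          exact FiniteField.pow_card_sub_one_eq_one x hx
        exact pow_eq_pow_of_modEq h6.symm h7
    rw [e2]
    exact (Rep.mono_pow h3 (by omega)).smul _

end

theorem PROD (h1 : LIN) (h2 : MUL) : Pool.Agent.W102.TD.PROD := by
  intro F _ _ _ m hF ι S l hS
  classical
  have key : ∀ S : Finset ι, S.card < m →
      Rep m S.card (fun x : F => algebraMap (ZMod 2) F (∏ s ∈ S, l s x)) := by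
    intro S
    induction S using Finset.induction_on with
    | empty =>
      intro h0
      have h3 : 0 < 2 ^ m - 1 := by
        have : 2 ^ 1 ≤ 2 ^ m := Nat.pow_le_pow_right (by norm_num)
          (Nat.succ_le_of_lt (by simpa using h0))
        omega
      have h4 : wt m 0 ≤ 0 := by simp [wt]
      have h5 := Rep.mono_pow (F := F) (r := 0) h3 h4
      simpa using h5
    | insert s S hs ih =>
      intro h0
      rw [Finset.card_insert_of_notMem hs] at h0 ⊢
      have h3 := ih (by omega)
      obtain ⟨c, hc⟩ := h1 F m hF (l s)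
      have e1 : (fun x : F => algebraMap (ZMod 2) F (∏ s' ∈ insert s S, l s' x)) =
          fun x => ∑ k ∈ Finset.range m, c k *
            (algebraMap (ZMod 2) F (∏ s' ∈ S, l s' x) * x ^ (2 ^ k)) := by
        funext x
        rw [Finset.prod_insert hs, map_mul, hc, Finset.sum_mul]
        exact Finset.sum_congr rfl fun k _ => by ring
      rw [e1]
      exact Rep.sum _ _ fun k hk =>
        (h3.mul_pow h2 hF (Finset.mem_range.1 hk) (by omega)).smul _
  exact key S hS

end Pool.Agent.W391.TD

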